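import Pool.Agent.L0h15.PM.Group

/-!
# Convergence for products of test functions and for all continuous functions
-/

set_option autoImplicit false

namespace Pool.Agent.L0h15.PM

namespace CMTheory

open Filter MeasureTheory

variable {F : Type} [Field F] (T : CMTheory F) {r : ℕ} (c : Fin r → T.Variety)

/-- the average over the translates by `2^r` times the class groups -/
noncomputable def L (o : Fin r → T.Order) (y : ∀ i, T.P (c i)) (f : C(∀ i, T.X (c i), ℝ)) : ℝ :=
  (∑ a : ∀ i, T.Pic (o i), f fun i => T.pt (c i) (T.act (c i) (o i) (2 ^ r • a i) (y i))) /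
    Fintype.card (∀ i, T.Pic (o i))

/-- the product measure -/
noncomputable abbrev ν : Measure (∀ i, T.X (c i)) := Measure.pi fun i => T.μ (c i)

/-- the averages converge for the orders `o n` and all conjugates `y n` of the points `x n` -/
def Good (o : ℕ → Fin r → T.Order) (x : ℕ → ∀ i, T.P (c i)) (f : C(∀ i, T.X (c i), ℝ)) : Prop :=
  ∀ y : ℕ → ∀ i, T.P (c i), (∀ n, y n ∈ MulAction.orbit (Gal F) (x n)) →
    Tendsto (fun n => T.L c (o n) (y n) f) atTop (nhds (∫ z, f z ∂(T.ν c)))

variable {c}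

theorem card_pos (o : Fin r → T.Order) : (0 : ℝ) < Fintype.card (∀ i, T.Pic (o i)) := by
  exact_mod_cast Fintype.card_pos

theorem integrable (f : C(∀ i, T.X (c i), ℝ)) : Integrable (fun z => f z) (T.ν c) := by
  refine ⟨f.continuous.aestronglyMeasurable, ?_⟩
  refine HasFiniteIntegral.of_bounded (C := ‖f‖) (Eventually.of_forall fun z => f.norm_coe_le_norm z)

theorem L_add (o : Fin r → T.Order) (y : ∀ i, T.P (c i)) (f g : C(∀ i, T.X (c i), ℝ)) :
    T.L c o y (f + g) = T.L c o y f + T.L c o y g := by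
  rw [L, L, L, ← add_div, ← Finset.sum_add_distrib]
  rfl

theorem L_smul (o : Fin r → T.Order) (y : ∀ i, T.P (c i)) (t : ℝ) (f : C(∀ i, T.X (c i), ℝ)) :
    T.L c o y (t • f) = t * T.L c o y f := by
  rw [L, L, mul_div_assoc', Finset.mul_sum]
  rfl

theorem L_sub_le (o : Fin r → T.Order) (y : ∀ i, T.P (c i)) (f g : C(∀ i, T.X (c i), ℝ)) :
    |T.L c o y f - T.L c o y g| ≤ ‖f - g‖ := by
  rw [L, L, ← sub_div, ← Finset.sum_sub_distrib, abs_div, abs_of_pos (T.card_pos o),
    div_le_iff₀ (T.card_pos o)]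
  refine (Finset.abs_sum_le_sum_abs _ _).trans ?_
  have h : ∀ a ∈ (Finset.univ : Finset (∀ i, T.Pic (o i))),
      |(f fun i => T.pt (c i) (T.act (c i) (o i) (2 ^ r • a i) (y i))) -
        g fun i => T.pt (c i) (T.act (c i) (o i) (2 ^ r • a i) (y i))| ≤ ‖f - g‖ := by
    intro a _
    exact (f - g).norm_coe_le_norm _
  refine (Finset.sum_le_sum h).trans ?_
  rw [Finset.sum_const, nsmul_eq_mul, mul_comm, Finset.card_univ]

theorem int_sub_le (f g : C(∀ i, T.X (c i), ℝ)) :
    |(∫ z, f z ∂(T.ν c)) - ∫ z, g z ∂(T.ν c)| ≤ ‖f - g‖ := by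
  rw [← integral_sub (T.integrable f) (T.integrable g)]
  have h := norm_integral_le_of_norm_le_const (μ := T.ν c) (f := fun z => f z - g z) (C := ‖f - g‖)
    (Eventually.of_forall fun z => (f - g).norm_coe_le_norm z)
  rwa [probReal_univ, mul_one] at h

variable {o : ℕ → Fin r → T.Order} {x : ℕ → ∀ i, T.P (c i)}

theorem good_add {f g : C(∀ i, T.X (c i), ℝ)} (hf : T.Good c o x f) (hg : T.Good c o x g) :
    T.Good c o x (f + g) := by
  intro y hy
  have h := (hf y hy).add (hg y hy)
  rw [← integral_add (T.integrable f) (T.integrable g)] at h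
  refine h.congr fun n => ?_
  rw [T.L_add]

theorem good_smul {f : C(∀ i, T.X (c i), ℝ)} (t : ℝ) (hf : T.Good c o x f) :
    T.Good c o x (t • f) := by
  intro y hy
  have h := (hf y hy).const_mul t
  rw [← integral_const_mul] at h
  refine h.congr fun n => ?_
  rw [T.L_smul]

theorem good_closure {S : Set C(∀ i, T.X (c i), ℝ)} (hS : ∀ f ∈ S, T.Good c o x f)
    {f : C(∀ i, T.X (c i), ℝ)} (hf : f ∈ closure S) : T.Good c o x f := by
  intro y hy
  rw [Metric.tendsto_atTop]
  intro ε hε
  obtain ⟨g, hg, hfg⟩ := Metric.mem_closure_iff.1 hf (ε / 3) (by positivity)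
  obtain ⟨N, hN⟩ := Metric.tendsto_atTop.1 (hS g hg y hy) (ε / 3) (by positivity)
  refine ⟨N, fun n hn => ?_⟩
  have h1 := hN n hn
  have h2 := T.L_sub_le (o n) (y n) f g
  have h3 := T.int_sub_le g f
  rw [dist_eq_norm] at hfg
  rw [norm_sub_rev] at h3
  rw [Real.dist_eq] at h1 ⊢
  have h4 : T.L c (o n) (y n) f - ∫ z, f z ∂(T.ν c) =
      (T.L c (o n) (y n) f - T.L c (o n) (y n) g) +
      (T.L c (o n) (y n) g - ∫ z, g z ∂(T.ν c)) +
      ((∫ z, g z ∂(T.ν c)) - ∫ z, f z ∂(T.ν c)) := by ring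
  rw [h4]
  refine (abs_add_three _ _ _).trans_lt ?_
  linarith

/-- the product of functions of one variable -/
noncomputable def prodFun (f : ∀ i, C(T.X (c i), ℝ)) : C(∀ i, T.X (c i), ℝ) :=
  ∏ i, (f i).comp ⟨fun z => z i, continuous_apply i⟩

theorem prodFun_apply (f : ∀ i, C(T.X (c i), ℝ)) (z : ∀ i, T.X (c i)) :
    T.prodFun f z = ∏ i, f i (z i) := by
  rw [prodFun, ContinuousMap.prod_apply]
  rfl

theorem good_prodFun (hx : ∀ i, T.Strong (c i) (fun n => o n i) (fun n => x n i))
    (f : ∀ i, C(T.X (c i), ℝ)) : T.Good c o x (T.prodFun f) := by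
  classical
  intro y hy
  have h1 : ∀ i, Tendsto (fun n => T.avg (c i) (o n i) r (y n i) (f i))
      atTop (nhds (∫ z, f i z ∂(T.μ (c i)))) := by
    intro i
    refine hx i (f i) r (fun n => y n i) fun n => ?_
    obtain ⟨σ, hσ⟩ := hy n
    exact ⟨σ, congrFun hσ i⟩
  have h2 := tendsto_finsetProd Finset.univ fun i _ => h1 i
  rw [← integral_fintype_prod_eq_prod] at h2
  have h3 : (∫ z, T.prodFun f z ∂(T.ν c)) =
      ∫ z : (∀ i, T.X (c i)), ∏ i, f i (z i) ∂(Measure.pi fun i => T.μ (c i)) := by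
    refine integral_congr_ae (Eventually.of_forall fun z => ?_)
    exact T.prodFun_apply f z
  rw [h3]
  refine h2.congr fun n => ?_
  simp only [avg]
  rw [L, Finset.prod_div_distrib, Fintype.card_pi, Nat.cast_prod]
  congr 1
  rw [Finset.prod_univ_sum, Fintype.piFinset_univ]
  refine Finset.sum_congr rfl fun a _ => ?_
  rw [T.prodFun_apply]

/-- the functions of one variable -/
def gens (c : Fin r → T.Variety) : Set C(∀ i, T.X (c i), ℝ) :=
  {g | ∃ (i : Fin r) (f : C(T.X (c i), ℝ)), g = f.comp ⟨fun z => z i, continuous_apply i⟩}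

theorem mem_monoid {g : C(∀ i, T.X (c i), ℝ)} (hg : g ∈ Submonoid.closure (T.gens c)) :
    ∃ f : ∀ i, C(T.X (c i), ℝ), g = T.prodFun f := by
  classical
  induction hg using Submonoid.closure_induction with
  | mem g hg =>
    obtain ⟨i, f, rfl⟩ := hg
    refine ⟨Function.update (fun _ => 1) i f, ?_⟩
    ext z
    rw [T.prodFun_apply, Finset.prod_eq_single i]
    · rw [Function.update_self]
      rfl
    · intro j _ hj
      rw [Function.update_of_ne hj]
      rfl
    · intro h
      exact absurd (Finset.mem_univ i) h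
  | one =>
    refine ⟨fun _ => 1, ?_⟩
    ext z
    rw [T.prodFun_apply]
    simp
  | mul g h _ _ hg hh =>
    obtain ⟨f, rfl⟩ := hg
    obtain ⟨f', rfl⟩ := hh
    refine ⟨fun i => f i * f' i, ?_⟩
    ext z
    rw [ContinuousMap.mul_apply, T.prodFun_apply, T.prodFun_apply, T.prodFun_apply,
      ← Finset.prod_mul_distrib]
    rfl

theorem good_adjoin (hx : ∀ i, T.Strong (c i) (fun n => o n i) (fun n => x n i)) {g : C(∀ i, T.X (c i), ℝ)} (hg : g ∈ Algebra.adjoin ℝ (T.gens c)) :
    T.Good c o x g := by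
  have h : g ∈ Submodule.span ℝ ((Submonoid.closure (T.gens c) : Submonoid _) : Set _) := by
    rw [← Algebra.adjoin_eq_span]
    exact hg
  clear hg
  induction h using Submodule.span_induction with
  | mem g hg =>
    obtain ⟨f, rfl⟩ := T.mem_monoid hg
    exact T.good_prodFun hx f
  | zero =>
    have := T.good_smul 0 (T.good_prodFun hx fun _ => 1)
    rwa [zero_smul] at this
  | add g h _ _ hg hh => exact T.good_add hg hh
  | smul t g _ hg => exact T.good_smul t hg

theorem separates : (Algebra.adjoin ℝ (T.gens c)).SeparatesPoints := by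
  intro z w hzw
  obtain ⟨i, hi⟩ := Function.ne_iff.1 hzw
  obtain ⟨f, hf0, hf1, -⟩ := exists_continuous_zero_one_of_isClosed
    (isClosed_singleton (x := z i)) (isClosed_singleton (x := w i))
    (Set.disjoint_singleton.2 hi)
  refine ⟨_, ⟨_, Algebra.subset_adjoin ⟨i, f, rfl⟩, rfl⟩, ?_⟩
  have h0 : f (z i) = 0 := hf0 rfl
  have h1 : f (w i) = 1 := hf1 rfl
  change f (z i) ≠ f (w i)
  rw [h0, h1]
  exact zero_ne_one

/-- the averages converge for all continuous functions -/
theorem good_all (hx : ∀ i, T.Strong (c i) (fun n => o n i) (fun n => x n i)) (f : C(∀ i, T.X (c i), ℝ)) : T.Good c o x f := by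
  have h := ContinuousMap.subalgebra_topologicalClosure_eq_top_of_separatesPoints
    (Algebra.adjoin ℝ (T.gens c)) T.separates
  have h1 : f ∈ (Algebra.adjoin ℝ (T.gens c)).topologicalClosure := by
    rw [h]
    exact Algebra.mem_top
  exact T.good_closure (S := (Algebra.adjoin ℝ (T.gens c) : Set _))
    (fun g hg => T.good_adjoin hx hg) (by rw [← Subalgebra.topologicalClosure_coe]; exact h1)

end CMTheory

end Pool.Agent.L0h15.PM
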