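import Mathlib

/-!
# Points with complex multiplication on products of modular curves and Shimura curves
-/

set_option autoImplicit false

namespace Pool.Agent.L0h15.PM

/-- the absolute Galois group of the field `F` -/
abbrev Gal (F : Type) [Field F] : Type := AlgebraicClosure F ≃ₐ[F] AlgebraicClosure F

/-- Shimura varieties over the totally real field `F` and their points with complex multiplication by
orders of CM fields which are quadratic over `F`, with Shimura's reciprocity law. Examples: for `F = ℚ`
modular curves and Shimura curves (level structures given by Eichler orders); geometrically connected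
Shimura curves over `F`; and the products of such curves, with the points all of whose coordinates have
complex multiplication by orders of the same field. -/
structure CMTheory (F : Type) [Field F] where
  /-- the varieties -/
  Variety : Type
  /-- the complex points of a compactification of the variety -/
  X : Variety → Type
  [top : ∀ C, TopologicalSpace (X C)]
  [cpt : ∀ C, CompactSpace (X C)]
  [t2 : ∀ C, T2Space (X C)]
  [sc : ∀ C, SecondCountableTopology (X C)]
  [ms : ∀ C, MeasurableSpace (X C)]
  [bs : ∀ C, BorelSpace (X C)]
  /-- the normalised invariant measure -/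
  μ : ∀ C, MeasureTheory.Measure (X C)
  [prob : ∀ C, MeasureTheory.IsProbabilityMeasure (μ C)]
  /-- the points over the algebraic closure of `F` -/
  P : Variety → Type
  [galois : ∀ C, MulAction (Gal F) (P C)]
  /-- the complex point, for an embedding of the algebraic closure in the complex numbers -/
  pt : ∀ C, P C → X C
  /-- the orders of the CM fields which are quadratic over `F` (subfields of the algebraic closure) -/
  Order : Type
  /-- the relative class group of an order -/
  Pic : Order → Type
  [grp : ∀ o, AddCommGroup (Pic o)]
  [fin : ∀ o, Fintype (Pic o)]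
  /-- the points with complex multiplication by the order (for products: by orders which contain it) -/
  pts : ∀ C, Order → Set (P C)
  pts_finite : ∀ C o, (pts C o).Finite
  /-- the action of the class group on these points -/
  act : ∀ C o, Pic o → P C → P C
  /-- the absolute Galois group of the CM field -/
  K : Order → Subgroup (Gal F)
  index : ∀ o, (K o).index = 2
  gal_mem : ∀ C o (σ : Gal F) x, x ∈ pts C o → σ • x ∈ pts C o
  /-- the homomorphism from the absolute Galois group of the CM field to the class group (without
  meaning outside of this group) -/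
  art : ∀ o, Gal F → Pic o
  art_mul : ∀ o σ τ, σ ∈ K o → τ ∈ K o → art o (σ * τ) = art o σ + art o τ
  art_surj : ∀ o a, ∃ σ ∈ K o, art o σ = a
  art_conj : ∀ o σ τ, σ ∈ K o → τ ∉ K o → art o (τ * σ * τ⁻¹) = -art o σ
  /-- the reciprocity law -/
  art_act : ∀ C o (σ : Gal F) x, σ ∈ K o → x ∈ pts C o → σ • x = act C o (art o σ) x

attribute [instance] CMTheory.top CMTheory.cpt CMTheory.t2 CMTheory.sc CMTheory.ms CMTheory.bs
  CMTheory.prob CMTheory.galois CMTheory.grp CMTheory.fin

namespace CMTheory

variable {F : Type} [Field F] (T : CMTheory F)

/-- the average of a function over the orbit of the point `y` for the group `2^s Pic` -/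
noncomputable def avg (C : T.Variety) (o : T.Order) (s : ℕ) (y : T.P C) (f : C(T.X C, ℝ)) : ℝ :=
  (∑ a : T.Pic o, f (T.pt C (T.act C o (2 ^ s • a) y))) / Fintype.card (T.Pic o)

/-- For the points `x n` of the variety `C` with complex multiplication by the orders `o n`, and for all
their Galois conjugates `y n`, the orbits of the groups `2^s Pic` are equidistributed. -/
def Strong (C : T.Variety) (o : ℕ → T.Order) (x : ℕ → T.P C) : Prop :=
  ∀ (f : C(T.X C, ℝ)) (s : ℕ) (y : ℕ → T.P C), (∀ n, y n ∈ MulAction.orbit (Gal F) (x n)) →
    Filter.Tendsto (fun n => T.avg C (o n) s (y n) f) Filter.atTop (nhds (∫ z, f z ∂(T.μ C)))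

/-- Curves for which the theorem of Duke is known, in the form for subgroups of small index (the index
of `2^s Pic` is bounded by every positive power of the discriminant, by genus theory): Duke, Zhang,
Harcos-Michel, Michel-Venkatesh. -/
structure Duke where
  /-- the curves -/
  IsCurve : T.Variety → Prop
  /-- the norm of the relative discriminant -/
  disc : T.Order → ℕ
  finite_disc : ∀ B : ℕ, {o | disc o ≤ B}.Finite
  equi : ∀ C, IsCurve C → ∀ (f : C(T.X C, ℝ)) (s : ℕ) (ε : ℝ), 0 < ε → ∃ B : ℕ, ∀ o, B ≤ disc o →
    ∀ x ∈ T.pts C o, |T.avg C o s x f - ∫ z, f z ∂(T.μ C)| < ε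

/-- the average of a function over the Galois orbit of a point of the product of the varieties `c i` -/
noncomputable def orbitAverage {r : ℕ} (c : Fin r → T.Variety) (f : C(∀ i, T.X (c i), ℝ))
    (x : ∀ i, T.P (c i)) : ℝ :=
  (∑ᶠ y : MulAction.orbit (Gal F) x, f fun i => T.pt (c i) (y.1 i)) /
    Nat.card (MulAction.orbit (Gal F) x)

/-- the Galois orbits of the points `x n` of the product of the varieties `c i` are equidistributed -/
def Equidistributed {r : ℕ} (c : Fin r → T.Variety) (x : ℕ → ∀ i, T.P (c i)) : Prop :=
  ∀ f : C(∀ i, T.X (c i), ℝ), Filter.Tendsto (fun n => T.orbitAverage c f (x n)) Filter.atTop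
    (nhds (∫ z, f z ∂(MeasureTheory.Measure.pi fun i => T.μ (c i))))

end CMTheory

end Pool.Agent.L0h15.PM
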