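import Pool.Agent.L0h15.PM.Defs

/-!
# Independence of the Galois actions for different CM fields
-/

set_option autoImplicit false

namespace Pool.Agent.L0h15.PM

namespace CMTheory

variable {F : Type} [Field F] (T : CMTheory F)

theorem normalK (o : T.Order) : (T.K o).Normal := Subgroup.normal_of_index_eq_two (T.index o)

theorem conj_mem (o : T.Order) {σ : Gal F} (hσ : σ ∈ T.K o) (τ : Gal F) :
    τ * σ * τ⁻¹ ∈ T.K o := (T.normalK o).conj_mem σ hσ τ

theorem art_one (o : T.Order) : T.art o 1 = 0 := by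
  have h := T.art_mul o 1 1 (T.K o).one_mem (T.K o).one_mem
  rw [one_mul] at h
  exact left_eq_add.1 h

theorem art_inv (o : T.Order) {τ : Gal F} (hτ : τ ∈ T.K o) : T.art o τ⁻¹ = -T.art o τ := by
  have h := T.art_mul o τ τ⁻¹ hτ ((T.K o).inv_mem hτ)
  rw [mul_inv_cancel, T.art_one] at h
  exact (neg_eq_of_add_eq_zero_right h.symm).symm

theorem art_conj_mem (o : T.Order) {σ τ : Gal F} (hσ : σ ∈ T.K o) (hτ : τ ∈ T.K o) :
    T.art o (τ * σ * τ⁻¹) = T.art o σ := by
  rw [T.art_mul o _ _ ((T.K o).mul_mem hτ hσ) ((T.K o).inv_mem hτ), T.art_mul o _ _ hτ hσ,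
    T.art_inv o hτ]
  abel

theorem art_conj_zero (o : T.Order) {σ : Gal F} (hσ : σ ∈ T.K o) (h : T.art o σ = 0)
    (τ : Gal F) : T.art o (τ * σ * τ⁻¹) = 0 := by
  by_cases hτ : τ ∈ T.K o
  · rw [T.art_conj_mem o hσ hτ, h]
  · rw [T.art_conj o σ τ hσ hτ, h, neg_zero]

theorem exists_sep {o o' : T.Order} (h : T.K o ≠ T.K o') : ∃ τ ∈ T.K o, τ ∉ T.K o' := by
  by_contra hcon
  push Not at hcon
  have hle : T.K o ≤ T.K o' := fun τ hτ => hcon τ hτ
  have h1 := Subgroup.relIndex_mul_index hle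
  rw [T.index, T.index] at h1
  have h2 : (T.K o).relIndex (T.K o') = 1 := by omega
  rw [Subgroup.relIndex_eq_one] at h2
  exact h (le_antisymm hle h2)

variable {r : ℕ} (o : Fin r → T.Order)

theorem exists_step (hK : ∀ i j, i ≠ j → T.K (o i) ≠ T.K (o j)) (i : Fin r) (a : T.Pic (o i))
    (s : Finset (Fin r)) (hs : i ∉ s) : ∃ σ : Gal F, (∀ k, σ ∈ T.K (o k)) ∧
      T.art (o i) σ = 2 ^ (s.card + 1) • a ∧ ∀ j ∈ s, T.art (o j) σ = 0 := by
  classical
  induction s using Finset.induction_on with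
  | empty =>
    obtain ⟨σ, hσ, rfl⟩ := T.art_surj (o i) a
    refine ⟨σ * σ, fun k => Subgroup.mul_self_mem_of_index_two (T.index (o k)) σ, ?_, ?_⟩
    · rw [T.art_mul (o i) σ σ hσ hσ, Finset.card_empty, zero_add, pow_one, two_nsmul]
    · intro j hj
      exact absurd hj (Finset.notMem_empty j)
  | insert j s hj ih =>
    rw [Finset.mem_insert, not_or] at hs
    obtain ⟨σ, h1, h2, h3⟩ := ih hs.2
    obtain ⟨τ, hτ1, hτ2⟩ := T.exists_sep (hK i j hs.1)
    refine ⟨σ * (τ * σ * τ⁻¹), fun k => (T.K (o k)).mul_mem (h1 k) (T.conj_mem (o k) (h1 k) τ),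
      ?_, ?_⟩
    · rw [T.art_mul (o i) _ _ (h1 i) (T.conj_mem (o i) (h1 i) τ), T.art_conj_mem (o i) (h1 i) hτ1,
        h2, Finset.card_insert_of_notMem hj, pow_succ _ (s.card + 1), mul_comm, mul_nsmul',
        two_nsmul]
    · intro k hk
      rw [T.art_mul (o k) _ _ (h1 k) (T.conj_mem (o k) (h1 k) τ)]
      rcases Finset.mem_insert.1 hk with rfl | hk
      · rw [T.art_conj (o k) σ τ (h1 k) hτ2, add_neg_cancel]
      · rw [h3 k hk, T.art_conj_zero (o k) (h1 k) (h3 k hk), add_zero]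

/-- for pairwise different CM fields there are elements of the Galois group which act by given
elements of `2^r Pic` for all factors -/
theorem exists_galois (hK : ∀ i j, i ≠ j → T.K (o i) ≠ T.K (o j)) (a : ∀ i, T.Pic (o i)) :
    ∃ σ : Gal F, (∀ k, σ ∈ T.K (o k)) ∧ ∀ i, T.art (o i) σ = 2 ^ r • a i := by
  classical
  have key : ∀ t : Finset (Fin r), ∃ σ : Gal F, (∀ k, σ ∈ T.K (o k)) ∧
      (∀ i ∈ t, T.art (o i) σ = 2 ^ r • a i) ∧ ∀ i ∉ t, T.art (o i) σ = 0 := by
    intro t
    induction t using Finset.induction_on with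
    | empty =>
      exact ⟨1, fun k => (T.K (o k)).one_mem, fun i hi => absurd hi (Finset.notMem_empty i),
        fun i _ => T.art_one (o i)⟩
    | insert i t hi ih =>
      obtain ⟨σ, h1, h2, h3⟩ := ih
      obtain ⟨τ, h4, h5, h6⟩ := T.exists_step o hK i (a i) (Finset.univ.erase i)
        (Finset.notMem_erase i _)
      have hcard : (Finset.univ.erase i).card + 1 = r := by
        rw [Finset.card_erase_of_mem (Finset.mem_univ i), Finset.card_univ, Fintype.card_fin]
        have := i.pos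
        omega
      rw [hcard] at h5
      refine ⟨σ * τ, fun k => (T.K (o k)).mul_mem (h1 k) (h4 k), ?_, ?_⟩
      · intro k hk
        rw [T.art_mul (o k) _ _ (h1 k) (h4 k)]
        by_cases hki : k = i
        · subst hki
          rw [h3 k hi, h5, zero_add]
        · rw [h6 k (Finset.mem_erase.2 ⟨hki, Finset.mem_univ k⟩), add_zero]
          exact h2 k ((Finset.mem_insert.1 hk).resolve_left hki)
      · intro k hk
        rw [Finset.mem_insert, not_or] at hk
        rw [T.art_mul (o k) _ _ (h1 k) (h4 k), h3 k hk.2,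
          h6 k (Finset.mem_erase.2 ⟨hk.1, Finset.mem_univ k⟩), add_zero]
  obtain ⟨σ, h1, h2, -⟩ := key Finset.univ
  exact ⟨σ, h1, fun i => h2 i (Finset.mem_univ i)⟩

end CMTheory

end Pool.Agent.L0h15.PM
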