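import Pool.Agent.L0h15.PM.Conv

/-!
# Galois orbits of CM points of products of curves
-/

set_option autoImplicit false

namespace Pool.Agent.L0h15.PM

namespace CMTheory

open Filter MeasureTheory

variable {F : Type} [Field F] (T : CMTheory F) {r : ℕ} {c : Fin r → T.Variety}

theorem orbit_mem {o : Fin r → T.Order} {x : ∀ i, T.P (c i)} (hx : ∀ i, x i ∈ T.pts (c i) (o i))
    {y : ∀ i, T.P (c i)} (hy : y ∈ MulAction.orbit (Gal F) x) (i : Fin r) :
    y i ∈ T.pts (c i) (o i) := by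
  obtain ⟨σ, rfl⟩ := hy
  exact T.gal_mem (c i) (o i) σ (x i) (hx i)

theorem orbit_finite {o : Fin r → T.Order} {x : ∀ i, T.P (c i)}
    (hx : ∀ i, x i ∈ T.pts (c i) (o i)) : Finite (MulAction.orbit (Gal F) x) := by
  have h : (Set.univ.pi fun i => T.pts (c i) (o i)).Finite :=
    Set.Finite.pi fun i => T.pts_finite (c i) (o i)
  exact (h.subset fun y hy i _ => T.orbit_mem hx hy i).to_subtype

/-- the average over the orbit is the average over the orbit of the averages over translates -/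
theorem orbitAverage_eq {o : Fin r → T.Order} (hK : ∀ i j, i ≠ j → T.K (o i) ≠ T.K (o j))
    {x : ∀ i, T.P (c i)} (hx : ∀ i, x i ∈ T.pts (c i) (o i)) [Fintype (MulAction.orbit (Gal F) x)]
    (f : C(∀ i, T.X (c i), ℝ)) : T.orbitAverage c f x =
      (∑ y : MulAction.orbit (Gal F) x, T.L c o y.1 f) /
        Fintype.card (MulAction.orbit (Gal F) x) := by
  classical
  rw [orbitAverage, finsum_eq_sum_of_fintype, Nat.card_eq_fintype_card]
  congr 1
  have h1 : ∀ a : ∀ i, T.Pic (o i), ∑ y : MulAction.orbit (Gal F) x,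
      (f fun i => T.pt (c i) (T.act (c i) (o i) (2 ^ r • a i) (y.1 i))) =
      ∑ y : MulAction.orbit (Gal F) x, f fun i => T.pt (c i) (y.1 i) := by
    intro a
    obtain ⟨σ, hσ1, hσ2⟩ := T.exists_galois o hK a
    rw [← Equiv.sum_comp (MulAction.toPerm σ : Equiv.Perm (MulAction.orbit (Gal F) x))
      fun y => f fun i => T.pt (c i) (y.1 i)]
    refine Finset.sum_congr rfl fun y _ => ?_
    congr 1
    funext i
    congr 1
    have h2 := T.art_act (c i) (o i) σ (y.1 i) (hσ1 i) (T.orbit_mem hx y.2 i)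
    rw [hσ2 i] at h2
    exact h2.symm
  have h3 : ∑ y : MulAction.orbit (Gal F) x, T.L c o y.1 f =
      (∑ a : ∀ i, T.Pic (o i), ∑ y : MulAction.orbit (Gal F) x,
        (f fun i => T.pt (c i) (T.act (c i) (o i) (2 ^ r • a i) (y.1 i)))) /
        Fintype.card (∀ i, T.Pic (o i)) := by
    rw [Finset.sum_comm, Finset.sum_div]
    rfl
  rw [h3, Finset.sum_congr rfl fun a _ => h1 a, Finset.sum_const, nsmul_eq_mul, Finset.card_univ,
    mul_div_cancel_left₀ _ (T.card_pos o).ne']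

/-- the discriminants tend to infinity -/
theorem disc_tendsto (D : T.Duke) {x : ℕ → ∀ i, T.P (c i)} {o : ℕ → Fin r → T.Order}
    (hx : ∀ n i, x n i ∈ T.pts (c i) (o n i))
    (hs : ∀ i p, ∀ᶠ n in atTop, x n i ≠ p) (i : Fin r) :
    Tendsto (fun n => D.disc (o n i)) atTop atTop := by
  rw [tendsto_atTop]
  intro B
  have hfin : (⋃ o ∈ {o | D.disc o ≤ B}, T.pts (c i) o).Finite :=
    (D.finite_disc B).biUnion fun o _ => T.pts_finite (c i) o
  have h : ∀ᶠ n in atTop, ∀ p ∈ (⋃ o ∈ {o | D.disc o ≤ B}, T.pts (c i) o), x n i ≠ p :=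
    (Filter.eventually_all_finite hfin).2 fun p _ => hs i p
  filter_upwards [h] with n hn
  by_contra hlt
  push Not at hlt
  exact hn (x n i) (Set.mem_biUnion (show o n i ∈ {o | D.disc o ≤ B} from hlt.le) (hx n i)) rfl

/-- equidistribution -/
theorem equidistributed {x : ℕ → ∀ i, T.P (c i)} {o : ℕ → Fin r → T.Order}
    (hx : ∀ n i, x n i ∈ T.pts (c i) (o n i))
    (hK : ∀ n i j, i ≠ j → T.K (o n i) ≠ T.K (o n j))
    (hs : ∀ i, T.Strong (c i) (fun n => o n i) (fun n => x n i)) : T.Equidistributed c x := by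
  classical
  intro f
  have hfin : ∀ n, Finite (MulAction.orbit (Gal F) (x n)) := fun n => T.orbit_finite (hx n)
  have hft : ∀ n, Nonempty (Fintype (MulAction.orbit (Gal F) (x n))) := fun n =>
    ⟨Fintype.ofFinite _⟩
  -- the worst point of the orbit
  have hmax : ∀ n, ∃ y : MulAction.orbit (Gal F) (x n), ∀ y' : MulAction.orbit (Gal F) (x n),
      |T.L c (o n) y'.1 f - ∫ z, f z ∂(T.ν c)| ≤ |T.L c (o n) y.1 f - ∫ z, f z ∂(T.ν c)| := by
    intro n
    have : Nonempty (MulAction.orbit (Gal F) (x n)) := ⟨⟨x n, MulAction.mem_orbit_self _⟩⟩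
    exact Finite.exists_max fun y : MulAction.orbit (Gal F) (x n) =>
      |T.L c (o n) y.1 f - ∫ z, f z ∂(T.ν c)|
  choose y hy using hmax
  have h1 := T.good_all hs f (fun n => (y n).1) (fun n => (y n).2)
  rw [tendsto_iff_norm_sub_tendsto_zero] at h1 ⊢
  refine squeeze_zero (fun n => norm_nonneg _) (fun n => ?_) h1
  obtain ⟨ft⟩ := hft n
  rw [T.orbitAverage_eq (hK n) (hx n) f, Real.norm_eq_abs, Real.norm_eq_abs]
  have hpos : (0 : ℝ) < Fintype.card (MulAction.orbit (Gal F) (x n)) := by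
    have : Nonempty (MulAction.orbit (Gal F) (x n)) := ⟨⟨x n, MulAction.mem_orbit_self _⟩⟩
    exact_mod_cast Fintype.card_pos
  have h2 : (∑ y' : MulAction.orbit (Gal F) (x n), T.L c (o n) y'.1 f) /
      Fintype.card (MulAction.orbit (Gal F) (x n)) - ∫ z, f z ∂(T.ν c) =
      (∑ y' : MulAction.orbit (Gal F) (x n), (T.L c (o n) y'.1 f - ∫ z, f z ∂(T.ν c))) /
      Fintype.card (MulAction.orbit (Gal F) (x n)) := by
    rw [Finset.sum_sub_distrib, Finset.sum_const, nsmul_eq_mul, Finset.card_univ, sub_div,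
      mul_div_cancel_left₀ _ hpos.ne']
  rw [h2, abs_div, abs_of_pos hpos, div_le_iff₀ hpos]
  refine (Finset.abs_sum_le_sum_abs _ _).trans ?_
  refine (Finset.sum_le_sum fun y' _ => hy n y').trans ?_
  rw [Finset.sum_const, nsmul_eq_mul, mul_comm, Finset.card_univ]

/-- Duke's theorem, along a sequence -/
theorem strong_of_duke (D : T.Duke) {x : ℕ → ∀ i, T.P (c i)} {o : ℕ → Fin r → T.Order}
    (hx : ∀ n i, x n i ∈ T.pts (c i) (o n i)) (hc : ∀ i, D.IsCurve (c i))
    (hs : ∀ i p, ∀ᶠ n in atTop, x n i ≠ p) (i : Fin r) :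
    T.Strong (c i) (fun n => o n i) (fun n => x n i) := by
  intro f s y hy
  rw [Metric.tendsto_atTop]
  intro ε hε
  obtain ⟨B, hB⟩ := D.equi (c i) (hc i) f s ε hε
  obtain ⟨N, hN⟩ := (tendsto_atTop_atTop.1 (T.disc_tendsto D hx hs i)) B
  refine ⟨N, fun n hn => ?_⟩
  rw [Real.dist_eq]
  refine hB _ (hN n hn) _ ?_
  obtain ⟨σ, hσ⟩ := hy n
  rw [← hσ]
  exact T.gal_mem (c i) (o n i) σ _ (hx n i)

end CMTheory

end Pool.Agent.L0h15.PM
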